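import Pool.Agent.Lib_helper55.ConnBdryProof

/-!
# Invariance of connected boundaries for Cayley graphs (MP_40378c_al)

Having connected boundaries is invariant under quasi-isometry of Cayley graphs, hence also under
bi-Lipschitz equivalence and under change of the finite generating set. The definitions are in
`Pool.Agent.Lib_helper55.ConnBdryDefs`, the proof in `Pool.Agent.Lib_helper55.ConnBdryProof`.
-/

namespace Pool.Agent.Results.MP_40378c_al.QuasiIsometryInvariance

open Pool.Agent.Lib_helper55.ConnBdry

universe u v

/-- **Having connected boundaries is invariant (a) under change of the finite generating set,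
(b) under bi-Lipschitz equivalence and (c) under quasi-isometry of Cayley graphs of finitely
generated groups.** -/
theorem result :
    -- (a) change of the finite generating set of a fixed group
    (∀ (G : Type u) [Group G] (S T : Set G), S.Finite → T.Finite →
      Subgroup.closure S = ⊤ → Subgroup.closure T = ⊤ →
      HasConnectedBoundaries (SimpleGraph.mulCayley S) →
      HasConnectedBoundaries (SimpleGraph.mulCayley T)) ∧
    -- (b) bi-Lipschitz equivalence of Cayley graphs
    (∀ (G : Type u) (H : Type v) [Group G] [Group H] (S : Set G) (T : Set H),
      S.Finite → T.Finite → Subgroup.closure S = ⊤ → Subgroup.closure T = ⊤ →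
      BiLipschitzEquivalent (SimpleGraph.mulCayley S) (SimpleGraph.mulCayley T) →
      HasConnectedBoundaries (SimpleGraph.mulCayley S) →
      HasConnectedBoundaries (SimpleGraph.mulCayley T)) ∧
    -- (c) quasi-isometry of Cayley graphs
    (∀ (G : Type u) (H : Type v) [Group G] [Group H] (S : Set G) (T : Set H),
      S.Finite → T.Finite → Subgroup.closure S = ⊤ → Subgroup.closure T = ⊤ →
      QuasiIsometric (SimpleGraph.mulCayley S) (SimpleGraph.mulCayley T) →
      HasConnectedBoundaries (SimpleGraph.mulCayley S) →
      HasConnectedBoundaries (SimpleGraph.mulCayley T)) := by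
  refine ⟨?_, ?_, ?_⟩
  · intro G _ S T hS hT hS' hT' h
    obtain ⟨L₁, hL₁⟩ := exists_dist_adj_le hS hT'
    obtain ⟨L₂, hL₂⟩ := exists_dist_adj_le hT hS'
    obtain ⟨r, hr⟩ := h
    refine cb_transfer (connected_mulCayley hS') (connected_mulCayley hT')
      (finite_neighborSet_mulCayley hS) (finite_neighborSet_mulCayley hT) id id (max L₁ L₂)
      ?_ ?_ ?_ ?_ hr
    · exact fun x y hxy => (hL₂ x y hxy).trans (le_max_right _ _)
    · exact fun x y hxy => (hL₁ x y hxy).trans (le_max_left _ _)
    · intro x; simp
    · intro x; simp
  · intro G H _ _ S T hS hT hS' hT' hqi h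
    exact hasConnectedBoundaries_of_quasiIsometric (connected_mulCayley hS')
      (connected_mulCayley hT') (finite_neighborSet_mulCayley hS)
      (finite_neighborSet_mulCayley hT) hqi.quasiIsometric h
  · intro G H _ _ S T hS hT hS' hT' hqi h
    exact hasConnectedBoundaries_of_quasiIsometric (connected_mulCayley hS')
      (connected_mulCayley hT') (finite_neighborSet_mulCayley hS)
      (finite_neighborSet_mulCayley hT) hqi h

end Pool.Agent.Results.MP_40378c_al.QuasiIsometryInvariance
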